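import Pool.Agent.H937R3.EllOne

/-!
# `ℓ¹(G)` inside `ℓ²(G)`: right convolution
-/

open scoped ENNReal InnerProductSpace

namespace X109.OC

open H937R3

universe u
variable {G : Type u} [DecidableEq G] [Group G]

/-- The Hilbert space `ℓ²(G)`. -/
abbrev H2 (G : Type*) : Type _ := lp (fun _ : G => ℂ) 2

lemma norm_single_le (x : G) :
    ‖(lp.single 2 x (1 : ℂ) : H2 G)‖ ≤ 1 := by
  have h := lp.norm_single (E := fun _ : G => ℂ) (p := 2) (by norm_num) x (1 : ℂ)
  rw [h]; simp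

/-- The inclusion of `ℓ¹(G)` into `ℓ²(G)`. -/
noncomputable def J : EllOne G →L[ℂ] H2 G :=
  EllOne.lift (fun x => (lp.single 2 x (1 : ℂ) : H2 G)) 1 norm_single_le

lemma J_delta (x : G) : J (EllOne.delta x) = (lp.single 2 x (1 : ℂ) : H2 G) :=
  EllOne.lift_delta _ _ _ x

/-- The value at `x` as a continuous functional on `ℓ¹(G)`. -/
noncomputable def ev (x : G) : EllOne G →L[ℂ] ℂ :=
  (lp.evalCLM ℂ (fun _ : G => ℂ) (p := 1) x : L1 G →L[ℂ] ℂ)

lemma ev_apply (x : G) (f : EllOne G) : ev x f = EllOne.coeff f x := rfl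

lemma coeff_delta (x y : G) : EllOne.coeff (EllOne.delta x) y = if y = x then 1 else 0 :=
  L1.delta_apply x y

lemma J_apply (f : EllOne G) (x : G) : (J f : H2 G) x = EllOne.coeff f x := by
  let ev2 : H2 G →L[ℂ] ℂ := lp.evalCLM ℂ (fun _ : G => ℂ) (p := 2) x
  have h : ev2.comp J = ev x := by
    refine EllOne.clm_ext fun y => ?_
    rw [ContinuousLinearMap.comp_apply, J_delta, ev_apply, coeff_delta]
    change (Pi.single y (1 : ℂ) : G → ℂ) x = _
    rw [Pi.single_apply]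
  exact congrArg (fun T : EllOne G →L[ℂ] ℂ => T f) h

lemma norm_J_le (f : EllOne G) : ‖J f‖ ≤ ‖f‖ := by
  have h := L1.lift_bound (fun x => (lp.single 2 x (1 : ℂ) : H2 G)) 1 norm_single_le f
  rw [one_mul] at h
  exact h

lemma norm_J_one : ‖(J (1 : EllOne G) : H2 G)‖ = 1 := by
  rw [EllOne.one_def, J_delta]
  have h := lp.norm_single (E := fun _ : G => ℂ) (p := 2) (by norm_num) (1 : G) (1 : ℂ)
  rw [h]; simp

lemma coeff_le_norm_J (f : EllOne G) (x : G) : ‖EllOne.coeff f x‖ ≤ ‖J f‖ := by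
  rw [← J_apply]
  exact lp.norm_apply_le_norm (by norm_num) _ x

lemma coeff_mul_delta (a : EllOne G) (s x : G) :
    EllOne.coeff (a * EllOne.delta s) x = EllOne.coeff a (x * s⁻¹) := by
  rw [EllOne.conv_apply, tsum_eq_single (x * s⁻¹)]
  · rw [coeff_delta, if_pos (by group), mul_one]
  · intro y hy
    rw [coeff_delta, if_neg, mul_zero]
    intro h
    apply hy
    rw [← h]; group

lemma inner_mul_delta (a b : EllOne G) (s : G) :
    ⟪J (a * EllOne.delta s), J (b * EllOne.delta s)⟫_ℂ = ⟪J a, J b⟫_ℂ := by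
  rw [lp.inner_eq_tsum, lp.inner_eq_tsum]
  simp only [J_apply, coeff_mul_delta]
  exact (Equiv.mulRight s⁻¹).tsum_eq (fun x => ⟪EllOne.coeff a x, EllOne.coeff b x⟫_ℂ)

lemma norm_mul_delta (a : EllOne G) (s : G) : ‖J (a * EllOne.delta s)‖ = ‖J a‖ := by
  have h := inner_mul_delta a a s
  rw [inner_self_eq_norm_sq_to_K, inner_self_eq_norm_sq_to_K] at h
  have h2 : ‖J (a * EllOne.delta s)‖ ^ 2 = ‖J a‖ ^ 2 := by exact_mod_cast h
  exact (sq_eq_sq₀ (norm_nonneg _) (norm_nonneg _)).1 h2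

/-- Right convolution by `e ∈ ℓ¹` is bounded on `ℓ²` by `‖e‖₁`. -/
lemma norm_J_mul_le (z e : EllOne G) : ‖J (z * e)‖ ≤ ‖J z‖ * ‖e‖ := by
  let T : EllOne G →L[ℂ] H2 G := (J : L1 G →L[ℂ] H2 G).comp (L1.convL z : L1 G →L[ℂ] L1 G)
  have hc : ∀ e : EllOne G, T e = J (z * e) := fun e =>
    congrArg (fun w : L1 G => (J : L1 G →L[ℂ] H2 G) w) (EllOne.conv_eq z e).symm
  have hT : T = EllOne.lift (fun y => J (z * EllOne.delta y)) ‖J z‖
      (fun y => (norm_mul_delta z y).le) := by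
    refine EllOne.clm_ext fun y => ?_
    rw [EllOne.lift_delta, hc]
  have h1 := L1.lift_bound (fun y => J (z * EllOne.delta y)) ‖J z‖
      (fun y => (norm_mul_delta z y).le) e
  rw [← hc, hT]
  exact h1

/-- Sup norm bound for convolution. -/
lemma coeff_mul_le (a b : EllOne G) (M : ℝ) (ha : ∀ x, ‖EllOne.coeff a x‖ ≤ M) (x : G) :
    ‖EllOne.coeff (a * b) x‖ ≤ M * ‖b‖ := by
  have hb : Summable (fun y => ‖EllOne.coeff b y‖) := L1.summable_norm b
  have hb2 : Summable (fun y => ‖EllOne.coeff b (y⁻¹ * x)‖) :=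
    ((Equiv.inv G).trans (Equiv.mulRight x)).summable_iff.2 hb
  have hs : ∑' y, ‖EllOne.coeff b (y⁻¹ * x)‖ = ‖b‖ := by
    rw [EllOne.norm_eq]
    exact ((Equiv.inv G).trans (Equiv.mulRight x)).tsum_eq (fun y => ‖EllOne.coeff b y‖)
  rw [EllOne.conv_apply, ← hs, ← tsum_mul_left]
  refine tsum_of_norm_bounded (hb2.mul_left M).hasSum ?_
  intro y
  rw [norm_mul]
  exact mul_le_mul_of_nonneg_right (ha y) (norm_nonneg _)

/-- The value at `1` of a product: bounded by sup norm of the right factor. -/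
lemma coeff_one_mul_le (z u : EllOne G) (M : ℝ) (hu : ∀ x, ‖EllOne.coeff u x‖ ≤ M) (x : G) :
    ‖EllOne.coeff (z * u) x‖ ≤ ‖z‖ * M := by
  have hz : Summable (fun y => ‖EllOne.coeff z y‖) := L1.summable_norm z
  rw [EllOne.conv_apply, EllOne.norm_eq, ← tsum_mul_right]
  refine tsum_of_norm_bounded (hz.mul_right M).hasSum ?_
  intro y
  rw [norm_mul]
  exact mul_le_mul_of_nonneg_left (hu _) (norm_nonneg _)

/-- `u` acts isometrically on `ℓ²(G)` by right convolution (on the dense subspace `ℓ¹(G)`). -/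
def RI (u : EllOne G) : Prop := ∀ z : EllOne G, ‖J (z * u)‖ = ‖J z‖

lemma RI_one : RI (1 : EllOne G) := fun z => by rw [mul_one]

lemma RI.mul {u w : EllOne G} (hu : RI u) (hw : RI w) : RI (u * w) := fun z => by
  rw [← mul_assoc, hw, hu]

lemma RI.coeff_le {u : EllOne G} (hu : RI u) (x : G) : ‖EllOne.coeff u x‖ ≤ 1 := by
  have h := hu 1
  rw [one_mul, norm_J_one] at h
  exact (coeff_le_norm_J u x).trans h.le

/-- `h` acts symmetrically on `ℓ²(G)` by right convolution. -/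
def Sym (h : EllOne G) : Prop := ∀ f : EllOne G, (⟪J (f * h), J f⟫_ℂ).im = 0

end X109.OC
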