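import Pool.Agent.X109.OC.Basic

/-!
# Cayley transforms of symmetric elements
-/

open scoped ENNReal InnerProductSpace

namespace X109.OC

open H937R3

universe u
variable {G : Type u} [DecidableEq G] [Group G]

noncomputable instance instComplete : CompleteSpace (EllOne G) :=
  inferInstanceAs (CompleteSpace (L1 G))

noncomputable instance instNOC : NormOneClass (EllOne G) :=
  ⟨by rw [EllOne.one_def, EllOne.norm_delta]⟩

lemma coeff_add (f g : EllOne G) (x : G) :
    EllOne.coeff (f + g) x = EllOne.coeff f x + EllOne.coeff g x := rfl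

lemma coeff_sub (f g : EllOne G) (x : G) :
    EllOne.coeff (f - g) x = EllOne.coeff f x - EllOne.coeff g x := rfl

lemma coeff_neg (f : EllOne G) (x : G) :
    EllOne.coeff (-f) x = -EllOne.coeff f x := rfl

lemma coeff_smul (c : ℂ) (f : EllOne G) (x : G) :
    EllOne.coeff (c • f) x = c * EllOne.coeff f x := rfl

lemma coeff_one (x : G) : EllOne.coeff (1 : EllOne G) x = if x = 1 then 1 else 0 := by
  rw [EllOne.one_def, coeff_delta]

lemma J_add (f g : EllOne G) : J (f + g) = J f + J g := map_add _ _ _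
lemma J_sub (f g : EllOne G) : J (f - g) = J f - J g := map_sub _ _ _
lemma J_smul (c : ℂ) (f : EllOne G) : J (c • f) = c • J f := map_smul _ _ _

lemma inner_swap (f : EllOne G) (s : G) :
    ⟪J (f * EllOne.delta s⁻¹), J f⟫_ℂ = starRingEnd ℂ ⟪J (f * EllOne.delta s), J f⟫_ℂ := by
  rw [inner_conj_symm, ← inner_mul_delta _ _ s, mul_assoc, EllOne.delta_mul_delta,
    inv_mul_cancel, ← EllOne.one_def, mul_one]

/-- The symmetric element `½(δ_s + δ_{s⁻¹} + iδ_t - iδ_{t⁻¹})`. -/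
noncomputable def hh (s t : G) : EllOne G :=
  (1 / 2 : ℂ) • (EllOne.delta s + EllOne.delta s⁻¹ + Complex.I • EllOne.delta t
    - Complex.I • EllOne.delta t⁻¹)

lemma sym_hh (s t : G) : Sym (hh s t) := by
  intro f
  have e : f * hh s t = (1 / 2 : ℂ) • (f * EllOne.delta s + f * EllOne.delta s⁻¹
      + Complex.I • (f * EllOne.delta t) - Complex.I • (f * EllOne.delta t⁻¹)) := by
    rw [hh, mul_smul_comm, mul_sub, mul_add, mul_add, mul_smul_comm, mul_smul_comm]
  rw [e, J_smul, J_sub, J_add, J_add, J_smul, J_smul, inner_smul_left, inner_sub_left,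
    inner_add_left, inner_add_left, inner_smul_left, inner_smul_left, inner_swap f s,
    inner_swap f t]
  generalize ⟪J (f * EllOne.delta s), J f⟫_ℂ = α
  generalize ⟪J (f * EllOne.delta t), J f⟫_ℂ = β
  have h2 : (starRingEnd ℂ) (1 / 2 : ℂ) = ((1 / 2 : ℝ) : ℂ) := by
    rw [← Complex.conj_ofReal]; norm_num
  rw [h2, Complex.im_ofReal_mul]
  simp

lemma norm_hh (s t : G) : ‖hh s t‖ ≤ 2 := by
  have h1 : ‖EllOne.delta s + EllOne.delta s⁻¹ + Complex.I • EllOne.delta t
    - Complex.I • EllOne.delta t⁻¹‖ ≤ 1 + 1 + 1 + 1 := by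
    refine (norm_sub_le _ _).trans (add_le_add ((norm_add_le _ _).trans (add_le_add
      ((norm_add_le _ _).trans (add_le_add ?_ ?_)) ?_)) ?_)
    · rw [EllOne.norm_delta]
    · rw [EllOne.norm_delta]
    · rw [norm_smul, EllOne.norm_delta]; simp
    · rw [norm_smul, EllOne.norm_delta]; simp
  rw [hh, norm_smul]
  have h2 : ‖(1 / 2 : ℂ)‖ = 1 / 2 := by norm_num
  rw [h2]; linarith

lemma isom_of_sym {h : EllOne G} (hs : Sym h) (σ : ℝ) (z : EllOne G) :
    ‖J (z * (1 + ((σ : ℂ) * Complex.I) • h))‖ = ‖J (z * (1 - ((σ : ℂ) * Complex.I) • h))‖ := by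
  have e1 : J (z * (1 + ((σ : ℂ) * Complex.I) • h))
      = J z + ((σ : ℂ) * Complex.I) • J (z * h) := by
    rw [mul_add, mul_one, mul_smul_comm, J_add, J_smul]
  have e2 : J (z * (1 - ((σ : ℂ) * Complex.I) • h))
      = J z - ((σ : ℂ) * Complex.I) • J (z * h) := by
    rw [mul_sub, mul_one, mul_smul_comm, J_sub, J_smul]
  have h0 : (⟪J z, J (z * h)⟫_ℂ).im = 0 := by
    have h1 := hs z
    rw [← inner_conj_symm, Complex.conj_im] at h1
    linarith
  have hre : RCLike.re ⟪J z, ((σ : ℂ) * Complex.I) • J (z * h)⟫_ℂ = 0 := by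
    rw [inner_smul_right]
    simp [h0]
  rw [e1, e2]
  have h3 := @norm_add_sq ℂ _ _ _ _ (J z) (((σ : ℂ) * Complex.I) • J (z * h))
  have h4 := @norm_sub_sq ℂ _ _ _ _ (J z) (((σ : ℂ) * Complex.I) • J (z * h))
  rw [hre] at h3 h4
  have h5 : ‖J z + ((σ : ℂ) * Complex.I) • J (z * h)‖ ^ 2
      = ‖J z - ((σ : ℂ) * Complex.I) • J (z * h)‖ ^ 2 := by
    rw [h3, h4]; ring
  exact (sq_eq_sq₀ (norm_nonneg _) (norm_nonneg _)).1 h5

lemma cayley {h : EllOne G} (hs : Sym h) (hn : ‖h‖ ≤ 2) :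
    ∃ w r : EllOne G, RI w ∧ ‖r‖ ≤ 1 / 1920 ∧
      w = 1 + (Complex.I / 16) • h - (1 / 512 : ℂ) • (h * h) + r := by
  set x : EllOne G := (((1 / 32 : ℝ) : ℂ) * Complex.I) • h with hx
  have hxn : ‖x‖ ≤ 1 / 16 := by
    rw [hx, norm_smul, norm_mul, Complex.norm_I, Complex.norm_real]
    have : ‖(1 / 32 : ℝ)‖ = 1 / 32 := by norm_num
    rw [this]; linarith
  obtain ⟨U, hU⟩ := isUnit_one_sub_of_norm_lt_one (x := x) (by linarith)
  have hU1 : (1 - x) * (↑U⁻¹ : EllOne G) = 1 := by rw [← hU]; exact U.mul_inv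
  have hU2 : (↑U⁻¹ : EllOne G) * (1 - x) = 1 := by rw [← hU]; exact U.inv_mul
  generalize (↑U⁻¹ : EllOne G) = y at hU1 hU2
  have hy : ‖y‖ ≤ 16 / 15 := by
    have h1 : y = 1 + x * y := by
      have : (1 - x) * y = y - x * y := by rw [sub_mul, one_mul]
      rw [this] at hU1
      rw [← hU1]; abel
    have h2 : ‖y‖ ≤ 1 + 1 / 16 * ‖y‖ := by
      calc ‖y‖ = ‖1 + x * y‖ := by rw [← h1]
        _ ≤ ‖(1 : EllOne G)‖ + ‖x * y‖ := norm_add_le _ _
        _ ≤ 1 + ‖x‖ * ‖y‖ := by rw [norm_one]; gcongr; exact norm_mul_le _ _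
        _ ≤ 1 + 1 / 16 * ‖y‖ := by gcongr
    linarith
  refine ⟨y * (1 + x), y * (2 * (x * x * x)), ?_, ?_, ?_⟩
  · intro z
    rw [← mul_assoc, hx, isom_of_sym hs, ← hx, mul_assoc, hU2, mul_one]
  · have h2 : ‖(2 : EllOne G)‖ ≤ 2 := by
      have : (2 : EllOne G) = 1 + 1 := by norm_num
      rw [this]
      refine (norm_add_le _ _).trans ?_
      rw [norm_one]; norm_num
    calc ‖y * (2 * (x * x * x))‖ ≤ ‖y‖ * (‖(2 : EllOne G)‖ * (‖x‖ * ‖x‖ * ‖x‖)) := by
          refine (norm_mul_le _ _).trans (mul_le_mul_of_nonneg_left ?_ (norm_nonneg _))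
          refine (norm_mul_le _ _).trans (mul_le_mul_of_nonneg_left ?_ (norm_nonneg _))
          exact (norm_mul_le _ _).trans (mul_le_mul_of_nonneg_right (norm_mul_le _ _)
            (norm_nonneg _))
      _ ≤ 16 / 15 * (2 * (1 / 16 * (1 / 16) * (1 / 16))) := by gcongr
      _ = 1 / 1920 := by norm_num
  · have e1 : 1 + (Complex.I / 16) • h - (1 / 512 : ℂ) • (h * h)
        = 1 + 2 * x + 2 * (x * x) := by
      have hxx : x * x = (-(1 / 1024) : ℂ) • (h * h) := by
        rw [hx, smul_mul_smul_comm]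
        congr 1
        push_cast
        linear_combination (1 / 1024 : ℂ) * Complex.I_mul_I
      have h2 : ∀ a : EllOne G, 2 * a = (2 : ℂ) • a := by
        intro a
        rw [two_mul, two_smul]
      rw [h2, h2, hxx, hx, smul_smul, smul_smul, sub_eq_add_neg, ← neg_smul]
      congr 3
      · push_cast; ring
      · push_cast; ring
    rw [e1]
    have e2 : y * (1 + x) = y * ((1 - x) * (1 + 2 * x + 2 * (x * x)) + 2 * (x * x * x)) := by
      congr 1
      noncomm_ring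
    rw [e2, mul_add, ← mul_assoc y (1 - x), hU2, one_mul]

end X109.OC
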