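import Pool.Agent.X109.OC.Cayley

/-!
# Spreading out: `ℓ²`-isometric elements with small coefficients
-/

open scoped ENNReal InnerProductSpace

namespace X109.OC

open H937R3

universe u
variable {G : Type u}

/-- Two elements with prescribed generic position with respect to a finite symmetric set. -/
lemma choose_pair [Group G] [DecidableEq G] [Infinite G] (E : Finset G)
    :
    ∃ s t : G, s ∉ E ∧ t ∉ E ∧ s * t ∉ E ∧ t * s ∉ E ∧ t * s⁻¹ ∉ E ∧ s⁻¹ * t ∉ E ∧
      (s * s = t * t ∨ (s * s ∉ E ∧ t * t ∉ E)) := by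
  have key : ∃ X : Set G, X.Infinite ∧ ((∃ a, ∀ x ∈ X, x * x = a) ∨ ∀ x ∈ X, x * x ∉ E) := by
    by_cases h : {x : G | x * x ∉ E}.Infinite
    · exact ⟨_, h, Or.inr fun x hx => hx⟩
    · have h2 : {x : G | x * x ∈ E}.Infinite := by
        have h3 : {x : G | x * x ∉ E}.Finite := Set.not_infinite.1 h
        have h4 := h3.infinite_compl
        refine h4.mono ?_
        intro x hx
        simpa using hx
      have h5 : ∃ a ∈ E, {x : G | x * x ∈ E ∧ x * x = a}.Infinite := by
        by_contra hcon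
        push Not at hcon
        apply h2
        have h6 : {x : G | x * x ∈ E} ⊆ ⋃ a ∈ E, {x : G | x * x ∈ E ∧ x * x = a} := by
          intro x hx
          simp only [Set.mem_iUnion]
          exact ⟨x * x, hx, hx, rfl⟩
        refine Set.Finite.subset ?_ h6
        refine Set.Finite.biUnion (Finset.finite_toSet E) ?_
        intro a ha
        exact hcon a ha
      obtain ⟨a, -, ha⟩ := h5
      exact ⟨_, ha, Or.inl ⟨a, fun x hx => hx.2⟩⟩
  obtain ⟨X, hX, hXa⟩ := key
  obtain ⟨s, hsX, hsE⟩ := hX.exists_notMem_finset E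
  let E2 : Finset G := E ∪ E.image (fun e => s⁻¹ * e) ∪ E.image (fun e => e * s⁻¹) ∪
    E.image (fun e => e * s) ∪ E.image (fun e => s * e)
  obtain ⟨t, htX, htE⟩ := hX.exists_notMem_finset E2
  simp only [E2, Finset.mem_union, Finset.mem_image, not_or, not_exists, not_and] at htE
  obtain ⟨⟨⟨⟨h1, h2⟩, h3⟩, h4⟩, h5⟩ := htE
  refine ⟨s, t, hsE, h1, fun h => h2 _ h (by group), fun h => h3 _ h (by group),
    fun h => h4 _ h (by group), fun h => h5 _ h (by group), ?_⟩
  rcases hXa with ⟨a, ha⟩ | ha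
  · left; rw [ha s hsX, ha t htX]
  · right; exact ⟨ha s hsX, ha t htX⟩

variable [DecidableEq G] [Group G]

/-- The part of `v` on the finite set `F`. -/
noncomputable def fin (F : Finset G) (v : EllOne G) : EllOne G :=
  ∑ x ∈ F, EllOne.coeff v x • EllOne.delta x

lemma coeff_fin (F : Finset G) (v : EllOne G) (x : G) :
    EllOne.coeff (fin F v) x = if x ∈ F then EllOne.coeff v x else 0 := by
  rw [← ev_apply, fin, map_sum]
  have : ∀ y ∈ F, ev x (EllOne.coeff v y • EllOne.delta y)
      = if x = y then EllOne.coeff v x else 0 := by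
    intro y _
    rw [ev_apply, coeff_smul, coeff_delta]
    split_ifs with h
    · rw [h, mul_one]
    · rw [mul_zero]
  rw [Finset.sum_congr rfl this, Finset.sum_ite_eq]

lemma exists_fin (v : EllOne G) (ε : ℝ) (hε : 0 < ε) : ∃ F : Finset G, ‖v - fin F v‖ < ε := by
  let v1 : L1 G := v
  have h : HasSum (fun b => lp.single 1 b (v1 b)) v1 :=
    lp.hasSum_single (E := fun _ : G => ℂ) (p := 1) (by norm_num) v1
  have h2 := (Metric.tendsto_atTop.1 h) ε hε
  obtain ⟨F, hF⟩ := h2
  refine ⟨F, ?_⟩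
  have h3 : dist (∑ b ∈ F, (lp.single 1 b (v1 b) : L1 G)) v1 < ε := hF F le_rfl
  rw [dist_eq_norm, norm_sub_rev] at h3
  have h4 : (∑ b ∈ F, (lp.single 1 b (v1 b) : L1 G)) = (fin F v : EllOne G) := by
    refine Finset.sum_congr rfl fun b _ => ?_
    have : (lp.single 1 b (v1 b) : L1 G)
        = (v1 b) • (lp.single 1 b (1 : ℂ) : L1 G) := by
      rw [← lp.single_smul]; simp
    exact this
  rw [h4] at h3
  exact h3

/-- Vanishing of `vF * g` on `F`. -/
def Van (F : Finset G) (a g : EllOne G) : Prop := ∀ x ∈ F, EllOne.coeff (a * g) x = 0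

lemma Van.add {F : Finset G} {a g k : EllOne G} (h1 : Van F a g) (h2 : Van F a k) :
    Van F a (g + k) := fun x hx => by
  rw [mul_add, coeff_add, h1 x hx, h2 x hx, add_zero]

lemma Van.sub {F : Finset G} {a g k : EllOne G} (h1 : Van F a g) (h2 : Van F a k) :
    Van F a (g - k) := fun x hx => by
  rw [mul_sub, coeff_sub, h1 x hx, h2 x hx, sub_zero]

lemma Van.smul {F : Finset G} {a g : EllOne G} (h1 : Van F a g) (c : ℂ) :
    Van F a (c • g) := fun x hx => by
  rw [mul_smul_comm, coeff_smul, h1 x hx, mul_zero]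

lemma van_delta (F : Finset G) (v : EllOne G) (g : G)
    (hg : ∀ x ∈ F, ∀ y ∈ F, g ≠ y⁻¹ * x) : Van F (fin F v) (EllOne.delta g) := fun x hx => by
  rw [coeff_mul_delta, coeff_fin, if_neg]
  intro h
  exact hg x hx _ h (by group)

/-- The remainder of `hh * hh` after the constant term. -/
lemma hh_sq (s t : G) : hh s t * hh s t = 1
    + (1 / 4 : ℂ) • (EllOne.delta (s * s) - EllOne.delta (t * t)
        + (EllOne.delta (s⁻¹ * s⁻¹) - EllOne.delta (t⁻¹ * t⁻¹)))
    + (Complex.I / 4) • (EllOne.delta (s * t) + EllOne.delta (t * s)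
        - EllOne.delta (s * t⁻¹) - EllOne.delta (t⁻¹ * s)
        + EllOne.delta (s⁻¹ * t) + EllOne.delta (t * s⁻¹)
        - EllOne.delta (s⁻¹ * t⁻¹) - EllOne.delta (t⁻¹ * s⁻¹)) := by
  have hI : Complex.I * Complex.I = -1 := Complex.I_mul_I
  rw [hh, smul_mul_smul_comm]
  simp only [mul_add, add_mul, mul_sub, sub_mul, smul_mul_assoc, mul_smul_comm,
    EllOne.delta_mul_delta, mul_inv_cancel, inv_mul_cancel, ← EllOne.one_def]
  match_scalars <;> first
    | ring1
    | linear_combination (-1 / 2 : ℂ) * hI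
    | linear_combination (1 / 2 : ℂ) * hI
    | linear_combination (-1 / 4 : ℂ) * hI
    | linear_combination (1 / 4 : ℂ) * hI

end X109.OC
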