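import Pool.Agent.X109.OC.Spread

/-!
# The spreading step, and small `ℓ²`-isometric elements
-/

open scoped ENNReal InnerProductSpace

namespace X109.OC

open H937R3

universe u
variable {G : Type u} [DecidableEq G] [Group G]

/-- `F⁻¹F`. -/
def dif (F : Finset G) : Finset G := (F ×ˢ F).image (fun p => p.2⁻¹ * p.1)

lemma mem_dif {F : Finset G} {x y : G} (hx : x ∈ F) (hy : y ∈ F) : y⁻¹ * x ∈ dif F :=
  Finset.mem_image.2 ⟨(x, y), Finset.mem_product.2 ⟨hx, hy⟩, rfl⟩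

lemma inv_mem_dif {F : Finset G} {g : G} (hg : g⁻¹ ∈ dif F) : g ∈ dif F := by
  obtain ⟨⟨x, y⟩, hp, h⟩ := Finset.mem_image.1 hg
  obtain ⟨hx, hy⟩ := Finset.mem_product.1 hp
  have : g = x⁻¹ * y := by
    rw [← inv_inv g, ← h]; group
  rw [this]
  exact mem_dif hy hx

lemma van_of_notMem {F : Finset G} (v : EllOne G) {g : G} (hg : g ∉ dif F) :
    Van F (fin F v) (EllOne.delta g) :=
  van_delta F v g fun x hx y hy h => hg (h ▸ mem_dif hx hy)

lemma van_hh {F : Finset G} (v : EllOne G) {s t : G} (hs : s ∉ dif F) (ht : t ∉ dif F) :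
    Van F (fin F v) (hh s t) := by
  have hs' : s⁻¹ ∉ dif F := fun h => hs (inv_mem_dif h)
  have ht' : t⁻¹ ∉ dif F := fun h => ht (inv_mem_dif h)
  exact Van.smul (((van_of_notMem v hs).add (van_of_notMem v hs')).add
    ((van_of_notMem v ht).smul _) |>.sub ((van_of_notMem v ht').smul _)) _

lemma van_zero (F : Finset G) (a : EllOne G) : Van F a 0 := fun x _ => by
  rw [mul_zero]; rfl

lemma van_sq {F : Finset G} (v : EllOne G) {s t : G} (h1 : s * t ∉ dif F) (h2 : t * s ∉ dif F)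
    (h3 : t * s⁻¹ ∉ dif F) (h4 : s⁻¹ * t ∉ dif F)
    (h5 : s * s = t * t ∨ (s * s ∉ dif F ∧ t * t ∉ dif F)) :
    Van F (fin F v) (hh s t * hh s t - 1) := by
  have h1' : t⁻¹ * s⁻¹ ∉ dif F := fun h => h1 (inv_mem_dif (by rw [mul_inv_rev]; exact h))
  have h2' : s⁻¹ * t⁻¹ ∉ dif F := fun h => h2 (inv_mem_dif (by rw [mul_inv_rev]; exact h))
  have h3' : s * t⁻¹ ∉ dif F := fun h => h3 (inv_mem_dif (by
    rw [mul_inv_rev, inv_inv]; exact h))
  have h4' : t⁻¹ * s ∉ dif F := fun h => h4 (inv_mem_dif (by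
    rw [mul_inv_rev, inv_inv]; exact h))
  have hsq : Van F (fin F v) (EllOne.delta (s * s) - EllOne.delta (t * t)
        + (EllOne.delta (s⁻¹ * s⁻¹) - EllOne.delta (t⁻¹ * t⁻¹))) := by
    rcases h5 with h5 | ⟨h5, h6⟩
    · have h6 : s⁻¹ * s⁻¹ = t⁻¹ * t⁻¹ := by rw [← mul_inv_rev, ← mul_inv_rev, h5]
      rw [h5, h6, sub_self, sub_self, add_zero]
      exact van_zero _ _
    · have h5' : s⁻¹ * s⁻¹ ∉ dif F := fun h => h5 (inv_mem_dif (by rw [mul_inv_rev]; exact h))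
      have h6' : t⁻¹ * t⁻¹ ∉ dif F := fun h => h6 (inv_mem_dif (by rw [mul_inv_rev]; exact h))
      exact ((van_of_notMem v h5).sub (van_of_notMem v h6)).add
        ((van_of_notMem v h5').sub (van_of_notMem v h6'))
  have e : hh s t * hh s t - 1 = (1 / 4 : ℂ) • (EllOne.delta (s * s) - EllOne.delta (t * t)
        + (EllOne.delta (s⁻¹ * s⁻¹) - EllOne.delta (t⁻¹ * t⁻¹)))
    + (Complex.I / 4) • (EllOne.delta (s * t) + EllOne.delta (t * s)
        - EllOne.delta (s * t⁻¹) - EllOne.delta (t⁻¹ * s)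
        + EllOne.delta (s⁻¹ * t) + EllOne.delta (t * s⁻¹)
        - EllOne.delta (s⁻¹ * t⁻¹) - EllOne.delta (t⁻¹ * s⁻¹)) := by
    rw [hh_sq]; abel
  rw [e]
  exact (hsq.smul _).add (Van.smul (((((((((van_of_notMem v h1).add (van_of_notMem v h2)).sub
    (van_of_notMem v h3')).sub (van_of_notMem v h4')).add (van_of_notMem v h4)).add
    (van_of_notMem v h3)).sub (van_of_notMem v h2')).sub (van_of_notMem v h1')) ) _)

lemma step [Infinite G] (v : EllOne G) (hv : RI v) (M : ℝ) (hM : 0 < M)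
    (hvM : ∀ x, ‖EllOne.coeff v x‖ ≤ M) :
    ∃ v' : EllOne G, RI v' ∧ ∀ x, ‖EllOne.coeff v' x‖ ≤ 999 / 1000 * M := by
  obtain ⟨F, hF⟩ := exists_fin v (M / 10000) (by positivity)
  obtain ⟨s, t, hs, ht, h1, h2, h3, h4, h5⟩ := choose_pair (dif F)
  obtain ⟨w, r, hw, hr, hwr⟩ := cayley (sym_hh s t) (norm_hh s t)
  have hn := norm_hh s t
  set h := hh s t with hh_def
  set a := fin F v with ha_def
  have haM : ∀ x, ‖EllOne.coeff a x‖ ≤ M := by
    intro x
    rw [ha_def, coeff_fin]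
    split_ifs
    · exact hvM x
    · rw [norm_zero]; exact hM.le
  set g : EllOne G := (Complex.I / 16) • h - (1 / 512 : ℂ) • (h * h - 1) with hg_def
  have hvan : Van F a g :=
    ((van_hh v hs ht).smul _).sub ((van_sq v h1 h2 h3 h4 h5).smul _)
  have hgn : ‖g‖ ≤ 1 / 4 := by
    have e1 : ‖(Complex.I / 16) • h‖ ≤ 1 / 8 := by
      rw [norm_smul, norm_div, Complex.norm_I]
      have : ‖(16 : ℂ)‖ = 16 := by norm_num
      rw [this]; linarith
    have e2 : ‖(1 / 512 : ℂ) • (h * h - 1)‖ ≤ 5 / 512 := by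
      rw [norm_smul]
      have h6 : ‖(1 / 512 : ℂ)‖ = 1 / 512 := by norm_num
      have h7 : ‖h * h - 1‖ ≤ 2 * 2 + 1 := by
        refine (norm_sub_le _ _).trans (add_le_add ((norm_mul_le _ _).trans ?_) norm_one.le)
        exact mul_le_mul hn hn (norm_nonneg _) (by norm_num)
      rw [h6]; linarith
    calc ‖g‖ ≤ ‖(Complex.I / 16) • h‖ + ‖(1 / 512 : ℂ) • (h * h - 1)‖ := norm_sub_le _ _
      _ ≤ 1 / 4 := by linarith
  have hw2 : w = (511 / 512 : ℂ) • 1 + (g + r) := by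
    have e3 : (511 / 512 : ℂ) • (1 : EllOne G) = 1 - (1 / 512 : ℂ) • (1 : EllOne G) := by
      have : (511 / 512 : ℂ) = 1 - 1 / 512 := by norm_num
      rw [this, sub_smul, one_smul]
    rw [hwr, e3, hg_def, smul_sub]; abel
  have hgr : ‖g + r‖ ≤ 1 / 3 := by
    refine (norm_add_le _ _).trans ?_
    linarith
  have h511 : ‖(511 / 512 : ℂ)‖ = 511 / 512 := by norm_num
  have hwn : ‖w‖ ≤ 2 := by
    rw [hw2]
    refine (norm_add_le _ _).trans ?_
    rw [norm_smul, norm_one, h511]; linarith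
  refine ⟨v * w, hv.mul hw, fun x => ?_⟩
  have e4 : v * w = a * w + (v - a) * w := by rw [sub_mul]; abel
  have e5 : ‖EllOne.coeff ((v - a) * w) x‖ ≤ M / 5000 := by
    have h8 : ‖EllOne.coeff ((v - a) * w) x‖ ≤ ‖(v - a) * w‖ :=
      (coeff_le_norm_J _ x).trans (norm_J_le _)
    have h9 : ‖(v - a) * w‖ ≤ M / 10000 * 2 :=
      (norm_mul_le _ _).trans (mul_le_mul hF.le hwn (norm_nonneg _) (by positivity))
    linarith
  have e6 : EllOne.coeff (a * w) x = (511 / 512 : ℂ) * EllOne.coeff a x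
      + EllOne.coeff (a * (g + r)) x := by
    rw [hw2, mul_add, coeff_add, mul_smul_comm, mul_one, coeff_smul]
  have e7 : ‖EllOne.coeff (a * w) x‖ ≤ (1 - 1 / 512 + 1 / 1920) * M := by
    by_cases hx : x ∈ F
    · have h10 : EllOne.coeff (a * (g + r)) x = EllOne.coeff (a * r) x := by
        rw [mul_add, coeff_add, hvan x hx, zero_add]
      rw [e6, h10]
      refine (norm_add_le _ _).trans ?_
      rw [norm_mul, h511]
      have h11 := coeff_mul_le a r M haM x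
      have h12 : M * ‖r‖ ≤ M * (1 / 1920) := mul_le_mul_of_nonneg_left hr hM.le
      have h13 := haM x
      linarith
    · have h10 : EllOne.coeff a x = 0 := by rw [ha_def, coeff_fin, if_neg hx]
      rw [e6, h10, mul_zero, zero_add]
      have h11 := coeff_mul_le a (g + r) M haM x
      have h12 : M * ‖g + r‖ ≤ M * (1 / 3) := mul_le_mul_of_nonneg_left hgr hM.le
      linarith
  rw [e4, coeff_add]
  refine (norm_add_le _ _).trans ?_
  linarith

lemma small [Infinite G] (n : ℕ) :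
    ∃ v : EllOne G, RI v ∧ ∀ x, ‖EllOne.coeff v x‖ ≤ (999 / 1000 : ℝ) ^ n := by
  induction n with
  | zero => exact ⟨1, RI_one, fun x => by rw [pow_zero]; exact RI_one.coeff_le x⟩
  | succ n ih =>
    obtain ⟨v, hv, hvM⟩ := ih
    obtain ⟨v', hv', h'⟩ := step v hv _ (by positivity) hvM
    exact ⟨v', hv', fun x => by rw [pow_succ']; exact h' x⟩

/-- If `z(u+e)=1` with `u` isometric and `‖e‖ ≤ 1/3`, then `z` is large. -/
lemma big {u e z : EllOne G} (hu : RI u) (he : ‖e‖ ≤ 1 / 3) (hz : z * (u + e) = 1) (M : ℝ)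
    (hM : ∀ x, ‖EllOne.coeff u x‖ ≤ M) : 1 / 2 ≤ ‖z‖ * M := by
  have h1 : z * u = 1 - z * e := by rw [← hz, mul_add]; abel
  have h2 : ‖J (z * e)‖ ≤ ‖J z‖ * (1 / 3) :=
    (norm_J_mul_le z e).trans (mul_le_mul_of_nonneg_left he (norm_nonneg _))
  have h3 : ‖J z‖ ≤ 3 / 2 := by
    have h4 : ‖J z‖ ≤ 1 + ‖J z‖ * (1 / 3) := by
      calc ‖J z‖ = ‖J (z * u)‖ := (hu z).symm
        _ = ‖J (1 : EllOne G) - J (z * e)‖ := by rw [h1, J_sub]
        _ ≤ ‖J (1 : EllOne G)‖ + ‖J (z * e)‖ := norm_sub_le _ _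
        _ ≤ 1 + ‖J z‖ * (1 / 3) := by rw [norm_J_one]; gcongr
    linarith
  have h5 : ‖EllOne.coeff (z * e) 1‖ ≤ 1 / 2 := by
    refine (coeff_le_norm_J _ 1).trans (h2.trans ?_)
    linarith
  have h6 := coeff_one_mul_le z u M hM 1
  have h7 : EllOne.coeff (z * u) 1 = 1 - EllOne.coeff (z * e) 1 := by
    rw [h1, coeff_sub, coeff_one, if_pos rfl]
  rw [h7] at h6
  have h8 : ‖(1 : ℂ)‖ ≤ ‖(1 : ℂ) - EllOne.coeff (z * e) 1‖ + ‖EllOne.coeff (z * e) 1‖ := by
    simpa using norm_add_le ((1 : ℂ) - EllOne.coeff (z * e) 1) (EllOne.coeff (z * e) 1)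
  rw [norm_one] at h8
  linarith

end X109.OC
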